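import Pool.Agent.Helper32.RK.Est

/-! Part COR: with good estimates the variables of the visible terms are found. -/

set_option autoImplicit false

namespace Pool.Agent.Helper32.RK.COR

open Finset
open Pool.Agent.Helper92.RK
open Pool.Agent.Helper92
open Pool.Agent.Helper92.AM (subs par fs Fine)

theorem fs_range {n : ℕ} : (fs (List.range n) : Finset (Fin n)) = univ := by
  ext i
  simp [AM.mem_fs]

theorem exists_rho {t r n : ℕ} (hc : (n + 1) ^ r ≤ t) (ρ : Tm n) (hρ : Con ρ)
    (hcard : ρ.card ≤ r) :
    ∃ ρL ∈ rhos t r n, tl ρL = ρ ∧ Fine n (ρL.map Prod.fst) ∧ ρL.length ≤ r ∧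
      ∀ i : Fin n, (i : ℕ) ∈ ρL.map Prod.fst ↔ i ∈ vr ρ := by
  classical
  have hc' : ((List.range n).length + 1) ^ r ≤ t := by rwa [List.length_range]
  obtain ⟨A, hA, hAf⟩ := AM.exists_subs AM.fine_range hc' (vr ρ)
    (by rw [fs_range]; exact subset_univ _) (card_image_le.trans hcard)
  have hA2 := AM.mem_subs AM.fine_range hc' hA
  have hAF : Fine n A := AM.fine_range.sublist hA2.1
  have hAl : A.length ≤ n := by
    have := hA2.1.length_le
    rwa [List.length_range] at this
  have hcA : (A.length + 1) ^ r ≤ t := (Nat.pow_le_pow_left (by omega) r).trans hc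
  obtain ⟨B, hB, hBf⟩ := AM.exists_subs hAF hcA ((ρ.filter fun l => l.2 = true).image Prod.fst)
    (by
      rw [hAf]
      unfold vr
      exact Finset.image_subset_image (Finset.filter_subset _ _))
    (card_image_le.trans ((Finset.card_filter_le _ _).trans hcard))
  have hmA : ∀ i : Fin n, (i : ℕ) ∈ A ↔ i ∈ vr ρ := fun i => by rw [← AM.mem_fs, hAf]
  have hmB : ∀ i : Fin n, (i : ℕ) ∈ B ↔ (i, true) ∈ ρ := fun i => by
    rw [← AM.mem_fs, hBf]
    simp
  have hfst : (A.map fun a => (a, decide (a ∈ B))).map Prod.fst = A := by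
    rw [List.map_map]
    exact List.map_id A
  refine ⟨A.map fun a => (a, decide (a ∈ B)), ?_, ?_, ?_, ?_, ?_⟩
  · unfold rhos
    rw [List.mem_flatMap]
    exact ⟨A, hA, List.mem_map.2 ⟨B, hB, rfl⟩⟩
  · ext l
    obtain ⟨i, b⟩ := l
    unfold tl
    simp only [Finset.mem_filter, Finset.mem_univ, true_and, List.mem_map, Prod.mk.injEq]
    constructor
    · rintro ⟨a, ha, hai, hab⟩
      subst hai
      obtain ⟨⟨i', b'⟩, hl, hi'⟩ := Finset.mem_image.1 ((hmA i).1 ha)
      have hi'' : i' = i := hi'
      subst hi''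
      cases b
      · have h1 : (i', true) ∉ ρ := by
          intro h
          rw [← hmB] at h
          simp [h] at hab
        cases b'
        · exact hl
        · exact absurd hl h1
      · rw [decide_eq_true_eq] at hab
        exact (hmB i').1 hab
    · intro h
      refine ⟨i, (hmA i).2 (Finset.mem_image.2 ⟨(i, b), h, rfl⟩), rfl, ?_⟩
      cases b
      · rw [decide_eq_false_iff_not, hmB]
        intro h2
        have := hρ _ h _ h2 rfl
        simp at this
      · rw [decide_eq_true_eq, hmB]
        exact h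
  · rw [hfst]
    exact hAF
  · rw [List.length_map]
    exact hA2.2
  · intro i
    rw [hfst]
    exact hmA i

theorem nat_abs (a b : ℕ) : (((a - b) + (b - a) : ℕ) : ℝ) = |(b : ℝ) - a| := by
  rcases le_total a b with h | h
  · have h1 : (a : ℝ) ≤ b := by exact_mod_cast h
    rw [abs_of_nonneg (by linarith), Nat.sub_eq_zero_of_le h, zero_add, Nat.cast_sub h]
  · have h1 : (b : ℝ) ≤ a := by exact_mod_cast h
    rw [abs_of_nonpos (by linarith), Nat.sub_eq_zero_of_le h, add_zero, Nat.cast_sub h]
    ring

theorem big_iff {q P : ℕ} {s : List (List Bool × Bool)} {ρ : List (ℕ × Bool)} {S : List ℕ}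
    (hq : 0 < q) (hP : 0 < P) (hs : 0 < s.length) :
    big q P s ρ S = true ↔ 3 * (1 / (4 * q * P : ℝ)) ≤
      |((cnt s ρ S false : ℝ) - cnt s ρ S true) / s.length| := by
  have hq' : (0 : ℝ) < q := by exact_mod_cast hq
  have hP' : (0 : ℝ) < P := by exact_mod_cast hP
  have hs' : (0 : ℝ) < s.length := by exact_mod_cast hs
  unfold big
  rw [decide_eq_true_eq, ← Nat.cast_le (α := ℝ)]
  rw [abs_div, abs_of_pos hs', le_div_iff₀ hs', ← nat_abs]
  set Z : ℕ := (cnt s ρ S true - cnt s ρ S false) + (cnt s ρ S false - cnt s ρ S true)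
  have e : 3 * (1 / (4 * q * P : ℝ)) * s.length ≤ (Z : ℝ) ↔
      ((3 * s.length : ℕ) : ℝ) ≤ ((4 * q * P * Z : ℕ) : ℝ) := by
    have h1 : 3 * (1 / (4 * q * P : ℝ)) * s.length = (3 * s.length) / (4 * q * P) := by
      field_simp
    rw [h1, div_le_iff₀ (by positivity)]
    push_cast
    constructor
    · intro h; linarith
    · intro h; linarith
  exact e.symm

theorem main : S_COR := by
  classical
  intro L0 r D u q B n t F s T hq hs hcap hE hTt hT hV
  have ht : 0 < t := lt_of_lt_of_le (by positivity) hcap
  have cap : ∀ E : ℕ, E ≤ L0 + r + D + u → ((List.range n).length + 1) ^ E ≤ t := by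
    intro E hE
    rw [List.length_range]
    exact (Nat.pow_le_pow_right (by omega) hE).trans hcap
  by_cases hL : T.card ≤ L0
  · obtain ⟨V, hV, hVf⟩ := AM.exists_subs AM.fine_range (cap L0 (by omega)) (vr T)
      (by rw [fs_range]; exact subset_univ _) (card_image_le.trans hL)
    refine ⟨V, ?_, fun i hi => ?_⟩
    · unfold cand
      exact List.mem_append_left _ hV
    · rw [← AM.mem_fs, hVf]
      exact hi
  · obtain ⟨i, ρ, V0, U, hρ, hi, hρr, hUu, hV0, hin, hout⟩ := hV (by omega)
    have hc2 := cap r (by omega)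
    rw [List.length_range] at hc2
    obtain ⟨ρL, hρL, htl, hfine, hlen, hvr⟩ := exists_rho hc2 ρ hρ hρr
    obtain ⟨U', hU', hU'f⟩ := AM.exists_subs AM.fine_range (cap u (by omega)) U
      (by rw [fs_range]; exact subset_univ _) hUu
    have hP : 0 < 2 ^ T.card := by positivity
    have hqr : (0 : ℝ) < q := by exact_mod_cast hq
    have hPr : (0 : ℝ) < ((2 ^ T.card : ℕ) : ℝ) := by exact_mod_cast hP
    set x : ℝ := 1 / (4 * q * ((2 ^ T.card : ℕ) : ℝ)) with hx
    have hx1 : 1 / (2 * q : ℝ) * (1 / 2 : ℝ) ^ T.card = 2 * x := by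
      rw [hx, one_div_pow]
      push_cast
      field_simp
      ring
    have hx2 : 1 / (q : ℝ) * (1 / 2 : ℝ) ^ T.card = 4 * x := by
      rw [hx, one_div_pow]
      push_cast
      field_simp
    have hxt : 1 / (4 * q * t : ℝ) ≤ x := by
      rw [hx]
      apply one_div_le_one_div_of_le (by positivity)
      have : ((2 ^ T.card : ℕ) : ℝ) ≤ t := by exact_mod_cast hTt
      nlinarith
    have hest : ∀ S : List ℕ, S ∈ subs t D (List.range n) →
        |((cnt s ρL S false : ℝ) - cnt s ρL S true) / s.length - Mco F ρ (fs S)| ≤ x := by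
      intro S hS
      have h1 := AM.mem_subs AM.fine_range (cap D (by omega)) hS
      have h2 := hE ρL S (AM.fine_range.sublist h1.1) h1.2 hfine hlen
      rw [htl] at h2
      exact h2.trans hxt
    set vh := vhat t D q (2 ^ T.card) n i ρL s with hvh
    have hmem : ∀ j : ℕ, j ∈ vh ↔ j < n ∧ ∃ S ∈ subs t D (List.range n), (i : ℕ) ∈ S ∧ j ∈ S ∧
        (∀ a ∈ S, a ∉ ρL.map Prod.fst) ∧ big q (2 ^ T.card) s ρL S = true := by
      intro j
      rw [hvh]
      unfold vhat
      rw [List.mem_filter, List.mem_range, List.any_eq_true]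
      refine and_congr_right fun _ => exists_congr fun S => and_congr_right fun _ => ?_
      rw [Bool.and_eq_true, Bool.and_eq_true, Bool.and_eq_true, decide_eq_true_eq,
        decide_eq_true_eq, List.all_eq_true, and_assoc, and_assoc]
      refine and_congr_right fun _ => and_congr_right fun _ => and_congr_left fun _ =>
        forall_congr' fun a => imp_congr_right fun _ => ?_
      rw [Bool.not_eq_true', decide_eq_false_iff_not]
    have hvF : Fine n vh := by
      rw [hvh]
      unfold vhat
      exact AM.fine_range.sublist List.filter_sublist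
    have hdisj : ∀ S : List ℕ, Disjoint (fs S : Finset (Fin n)) (vr ρ) ↔
        ∀ a ∈ S, a < n → a ∉ ρL.map Prod.fst := by
      intro S
      rw [Finset.disjoint_left]
      constructor
      · intro h a ha han hmem'
        exact h (a := ⟨a, han⟩) (AM.mem_fs.2 ha) ((hvr ⟨a, han⟩).1 hmem')
      · intro h a ha hmem'
        exact h a (AM.mem_fs.1 ha) a.2 ((hvr a).2 hmem')
    have hsubV : (fs vh : Finset (Fin n)) ⊆ V0 := by
      intro j hj
      rw [AM.mem_fs, hmem] at hj
      obtain ⟨_, S, hS, hiS, hjS, hall, hb⟩ := hj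
      have h1 := AM.mem_subs AM.fine_range (cap D (by omega)) hS
      have hSF : Fine n S := AM.fine_range.sublist h1.1
      have h2 : (fs S : Finset (Fin n)) ⊆ V0 := by
        apply hin
        · rw [AM.card_fs hSF]
          exact h1.2
        · exact AM.mem_fs.2 hiS
        · rw [hdisj]
          exact fun a ha _ => hall a ha
        · rw [big_iff hq hP hs] at hb
          rw [hx1]
          have h3 := hest S hS
          have h4 := abs_sub_abs_le_abs_sub
            (((cnt s ρL S false : ℝ) - cnt s ρL S true) / s.length) (Mco F ρ (fs S))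
          have h5 : 3 * x ≤ |((cnt s ρL S false : ℝ) - cnt s ρL S true) / s.length| := hb
          linarith
      exact h2 (AM.mem_fs.2 hjS)
    have hvl : vh.length ≤ B * Nat.size t := by
      rw [← AM.card_fs hvF]
      refine (Finset.card_le_card hsubV).trans (hV0.trans (Nat.mul_le_mul_left _ ?_))
      exact (Nat.lt_size.2 hTt).le
    refine ⟨vh ++ U', ?_, ?_⟩
    · unfold cand
      refine List.mem_append_right _ ?_
      rw [List.mem_flatMap]
      refine ⟨ρL, hρL, ?_⟩
      rw [List.mem_flatMap]
      refine ⟨i, List.mem_range.2 i.2, ?_⟩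
      rw [List.mem_flatMap]
      refine ⟨2 ^ T.card, List.mem_range.2 (by omega), ?_⟩
      unfold cand1
      rw [if_pos hvl]
      exact List.mem_map.2 ⟨U', hU', rfl⟩
    · intro j hj
      rw [List.mem_append]
      by_cases hjU : j ∈ U
      · right
        rw [← AM.mem_fs, hU'f]
        exact hjU
      · left
        obtain ⟨S, hSD, hiS, hjS, hdj, hbigM⟩ := hout j hj hjU
        obtain ⟨S', hS', hS'f⟩ := AM.exists_subs AM.fine_range (cap D (by omega)) S
          (by rw [fs_range]; exact subset_univ _) hSD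
        rw [hmem]
        have h1 := AM.mem_subs AM.fine_range (cap D (by omega)) hS'
        have hSF : Fine n S' := AM.fine_range.sublist h1.1
        refine ⟨j.2, S', hS', ?_, ?_, ?_, ?_⟩
        · rw [← AM.mem_fs, hS'f]
          exact hiS
        · rw [← AM.mem_fs, hS'f]
          exact hjS
        · rw [← hS'f, hdisj] at hdj
          exact fun a ha => hdj a ha (hSF.2 a ha)
        · rw [big_iff hq hP hs]
          rw [hx2] at hbigM
          have h3 := hest S' hS'
          rw [hS'f] at h3
          have h4 := abs_sub_abs_le_abs_sub (Mco F ρ S)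
            (((cnt s ρL S' false : ℝ) - cnt s ρL S' true) / s.length)
          rw [abs_sub_comm] at h4
          show 3 * x ≤ |((cnt s ρL S' false : ℝ) - cnt s ρL S' true) / s.length|
          linarith

end Pool.Agent.Helper32.RK.COR
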