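import Pool.Agent.Helper92.RK.Alg

/-! Part CSZ: the number and the sizes of the candidates. -/

set_option autoImplicit false

namespace Pool.Agent.Helper32.RK.CSZ

open Pool.Agent.Helper92.RK
open Pool.Agent.Helper92
open Pool.Agent.Helper92.AM (subs sub0 sub1)

theorem flat_len {α β : Type} (l : List α) (f : α → List β) (b : ℕ) (h : ∀ x ∈ l, (f x).length ≤ b) :
    (l.flatMap f).length ≤ l.length * b := by
  induction l with
  | nil => simp
  | cons a l ih =>
    rw [List.flatMap_cons, List.length_append, List.length_cons, Nat.add_mul, one_mul]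
    have h1 := h a (by simp)
    have h2 := ih fun x hx => h x (List.mem_cons_of_mem _ hx)
    omega

theorem subs_le (W D : ℕ) : ∀ C : List ℕ, ∀ U ∈ subs W D C, U.length ≤ D := by
  intro C
  induction C with
  | nil =>
    intro U hU
    simp only [subs, List.foldr_nil, List.mem_singleton] at hU
    subst hU
    simp
  | cons a C ih =>
    intro U hU
    have e1 : subs W D (a :: C) = sub1 W D a (subs W D C) := rfl
    rw [e1, sub1] at hU
    split_ifs at hU with h
    · simp only [sub0, List.mem_append, List.mem_map, List.mem_filter, decide_eq_true_eq] at hU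
      rcases hU with hU | ⟨U', ⟨hU', hlt⟩, rfl⟩
      · exact ih U hU
      · simpa using hlt
    · simp at hU

theorem slen (W D : ℕ) (C : List ℕ) : (subs W D C).length ≤ W + 1 :=
  Pool.Agent.Helper92.AM.subs_len W D C

theorem main : S_CSZ := by
  intro L0 r D u q B n t s ht hnt
  constructor
  · unfold cand
    rw [List.length_append]
    have h1 := slen t L0 (List.range n)
    have h2 : (rhos t r n).length ≤ (t + 1) * (t + 1) := by
      unfold rhos
      refine (flat_len _ _ (t + 1) fun A _ => ?_).trans
        (Nat.mul_le_mul_right _ (slen t r (List.range n)))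
      rw [List.length_map]
      exact slen t r A
    have h3 : ∀ (ρ : List (ℕ × Bool)) (i P : ℕ), (cand1 t D u q B n t s ρ i P).length ≤ t + 1 := by
      intro ρ i P
      unfold cand1
      split_ifs
      · rw [List.length_map]
        exact slen t u (List.range n)
      · simp
    have h4 : ((rhos t r n).flatMap fun ρ => (List.range n).flatMap fun i =>
        (List.range (t + 1)).flatMap fun P => cand1 t D u q B n t s ρ i P).length ≤
        ((t + 1) * (t + 1)) * ((t + 1) * ((t + 1) * (t + 1))) := by
      refine (flat_len _ _ ((t + 1) * ((t + 1) * (t + 1))) fun ρ _ => ?_).trans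
        (Nat.mul_le_mul_right _ h2)
      refine (flat_len _ _ ((t + 1) * (t + 1)) fun i _ => ?_).trans
        (Nat.mul_le_mul_right _ ?_)
      · refine (flat_len _ _ (t + 1) fun P _ => h3 ρ i P).trans ?_
        rw [List.length_range]
      · rw [List.length_range]
        omega
    have e2 : (2 * t + 2) ^ 6 = 64 * (t + 1) ^ 6 := by ring
    have e3 : ((t + 1) * (t + 1)) * ((t + 1) * ((t + 1) * (t + 1))) = (t + 1) ^ 5 := by ring
    have e4 : t + 1 ≤ (t + 1) ^ 6 := Nat.le_self_pow (by norm_num) _
    have e5 : (t + 1) ^ 5 ≤ (t + 1) ^ 6 := Nat.pow_le_pow_right (by omega) (by norm_num)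
    rw [e2]
    rw [e3] at h4
    omega
  · intro V hV
    unfold cand at hV
    rcases List.mem_append.1 hV with hV | hV
    · have := subs_le t L0 _ V hV
      omega
    · obtain ⟨ρ, -, hV⟩ := List.mem_flatMap.1 hV
      obtain ⟨i, -, hV⟩ := List.mem_flatMap.1 hV
      obtain ⟨P, -, hV⟩ := List.mem_flatMap.1 hV
      unfold cand1 at hV
      split_ifs at hV with h
      · obtain ⟨U, hU, rfl⟩ := List.mem_map.1 hV
        rw [List.length_append]
        have := subs_le t u _ U hU
        omega
      · simp at hV

end Pool.Agent.Helper32.RK.CSZ
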