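import Pool.Agent.Helper92.RK.Alg

/-! The empirical correlations. -/

set_option autoImplicit false

namespace Pool.Agent.Helper32.RK

open Finset
open Pool.Agent.Helper92.RK
open Pool.Agent.Helper92
open Pool.Agent.Helper92.AM (par fs Fine sample)

variable {n : ℕ}

open Classical in
/-- the random variable -/
noncomputable def vv (F : Finset (Tm n)) (R : Tm n) (S : Finset (Fin n)) (y : Fin n → Bool) : ℝ :=
  if val F y ∧ Sat R y then Pool.Agent.Helper92.RK.chi S y else 0

theorem chi_abs (S : Finset (Fin n)) (y : Fin n → Bool) : |Pool.Agent.Helper92.RK.chi S y| = 1 := by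
  unfold Pool.Agent.Helper92.RK.chi
  rw [Finset.abs_prod]
  apply Finset.prod_eq_one
  intro i _
  split_ifs <;> simp

theorem vv_le (F : Finset (Tm n)) (R : Tm n) (S : Finset (Fin n)) (y : Fin n → Bool) :
    |vv F R S y| ≤ 1 := by
  unfold vv
  split_ifs
  · rw [chi_abs]
  · simp

theorem mean (F : Finset (Tm n)) (R : Tm n) (S : Finset (Fin n)) :
    Mco F R S * Fintype.card (Fin n → Bool) = ∑ y, vv F R S y := by
  have hc : ((Fintype.card (Fin n → Bool) : ℕ) : ℝ) = 2 ^ n := by simp
  rw [hc]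
  unfold Mco vv
  rw [div_mul_cancel₀ _ (by positivity)]

theorem satL_eq {ρ : List (ℕ × Bool)} (hρ : ∀ l ∈ ρ, l.1 < n) (y : Fin n → Bool) :
    satL ρ (List.ofFn y) = true ↔ Sat (tl ρ) y := by
  unfold satL Sat tl
  rw [List.all_eq_true]
  constructor
  · intro h l hl
    rw [Finset.mem_filter] at hl
    have h1 := h _ hl.2
    rw [decide_eq_true_eq] at h1
    have h2 : (List.ofFn y).getD ((l.1 : ℕ)) false = y l.1 := AM.getD_ofFn y l.1
    simpa [h2] using h1
  · intro h l hl
    rw [decide_eq_true_eq]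
    have h1 := h (⟨l.1, hρ l hl⟩, l.2) (Finset.mem_filter.2 ⟨Finset.mem_univ _, hl⟩)
    have h2 : (List.ofFn y).getD l.1 false = y ⟨l.1, hρ l hl⟩ := AM.getD_ofFn y ⟨l.1, hρ l hl⟩
    rw [h2]
    exact h1

theorem tl_card (ρ : List (ℕ × Bool)) : (tl ρ : Tm n).card ≤ ρ.length := by
  classical
  have h1 : ((tl ρ : Tm n).image fun l => ((l.1 : ℕ), l.2)) ⊆ ρ.toFinset := by
    intro z hz
    obtain ⟨l, hl, rfl⟩ := Finset.mem_image.1 hz
    rw [List.mem_toFinset]
    exact (Finset.mem_filter.1 hl).2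
  have h2 : ((tl ρ : Tm n).image fun l => ((l.1 : ℕ), l.2)).card = (tl ρ : Tm n).card := by
    apply Finset.card_image_of_injective
    intro a b hab
    simp only [Prod.mk.injEq] at hab
    exact Prod.ext (Fin.ext hab.1) hab.2
  rw [← h2]
  exact (Finset.card_le_card h1).trans (List.toFinset_card_le _)

theorem cnt_sum (s : List (List Bool × Bool)) (ρ : List (ℕ × Bool)) (S : List ℕ) :
    (cnt s ρ S false : ℝ) - cnt s ρ S true =
      (s.map fun z => if (z.2 && satL ρ z.1) = true then (if par S z.1 then (-1 : ℝ) else 1) else 0).sum := by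
  unfold cnt
  induction s with
  | nil => simp
  | cons z s ih =>
    rw [List.filter_cons, List.filter_cons, List.map_cons, List.sum_cons, ← ih]
    cases h1 : (z.2 && satL ρ z.1)
    · simp
    · cases h2 : par S z.1
      · simp
        ring
      · simp
        ring

theorem cnt_eq {m : ℕ} (F : Finset (Tm n)) (x : Fin m → Fin n → Bool) {ρ : List (ℕ × Bool)}
    {S : List ℕ} (hS : Fine n S) (hρ : ∀ l ∈ ρ, l.1 < n) :
    (cnt (sample (vb F) x) ρ S false : ℝ) - cnt (sample (vb F) x) ρ S true =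
      ∑ j, vv F (tl ρ) (fs S) (x j) := by
  classical
  rw [cnt_sum, sample, List.map_ofFn, List.sum_ofFn]
  refine Finset.sum_congr rfl fun j _ => ?_
  have h1 : Pool.Agent.Helper92.RK.chi (fs S) (x j) = if par S (List.ofFn (x j)) then -1 else 1 :=
    AM.chi_eq hS (x j)
  have h2 : ((vb F (x j) && satL ρ (List.ofFn (x j))) = true) ↔ (val F (x j) ∧ Sat (tl ρ) (x j)) := by
    rw [Bool.and_eq_true, satL_eq hρ]
    unfold vb
    rw [decide_eq_true_eq]
  unfold vv
  rw [h1]
  simp only [Function.comp_apply]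
  by_cases h3 : val F (x j) ∧ Sat (tl ρ) (x j)
  · rw [if_pos (h2.2 h3), if_pos h3]
  · rw [if_neg (fun h => h3 (h2.1 h)), if_neg h3]

end Pool.Agent.Helper32.RK
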