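import Pool.Agent.Helper32.RK.Est

/-! Part HOE: Hoeffding for all the estimates. -/

set_option autoImplicit false

namespace Pool.Agent.Helper32.RK.HOE

open Finset
open Pool.Agent.Helper92.RK
open Pool.Agent.Helper92
open Pool.Agent.Helper92.AM (par fs Fine sample)

theorem main : S_HOE := by
  classical
  intro n D r m F η hm h0 h1
  set A : Finset (Finset (Fin n)) := (univ : Finset (Fin n)).powerset.filter fun U => U.card ≤ D
    with hA
  set R : Finset (Tm n) := (univ : Finset (Fin n × Bool)).powerset.filter fun U => U.card ≤ r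
    with hR
  have hAc : A.card ≤ (n + 1) ^ D := by
    have := AM.card_small (univ : Finset (Fin n)) D
    rw [Finset.card_univ, Fintype.card_fin] at this
    exact this
  have hRc : R.card ≤ (2 * n + 1) ^ r := by
    have := AM.card_small (univ : Finset (Fin n × Bool)) r
    have h2 : (univ : Finset (Fin n × Bool)).card = 2 * n := by
      rw [Finset.card_univ, Fintype.card_prod, Fintype.card_fin, Fintype.card_bool, mul_comm]
    rw [h2] at this
    exact this
  set bad : Tm n × Finset (Fin n) → Finset (Fin m → Fin n → Bool) := fun z =>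
    univ.filter fun x => m * η < |∑ j, vv F z.1 z.2 (x j) - m * Mco F z.1 z.2| with hbad
  have hsub : (univ.filter fun x : Fin m → Fin n → Bool => ¬ Est F (sample (vb F) x) D r η) ⊆
      (R ×ˢ A).biUnion bad := by
    intro x hx
    rw [Finset.mem_filter] at hx
    have h2 := hx.2
    unfold Est at h2
    push Not at h2
    obtain ⟨ρ, S, hS, hSD, hρ, hρr, hlt⟩ := h2
    have hρn : ∀ l ∈ ρ, l.1 < n := fun l hl => hρ.2 l.1 (List.mem_map_of_mem hl)
    rw [Finset.mem_biUnion]
    refine ⟨(tl ρ, fs S), ?_, ?_⟩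
    · rw [Finset.mem_product]
      refine ⟨Finset.mem_filter.2 ⟨Finset.mem_powerset.2 (Finset.subset_univ _), ?_⟩,
        Finset.mem_filter.2 ⟨Finset.mem_powerset.2 (Finset.subset_univ _), ?_⟩⟩
      · exact (tl_card ρ).trans hρr
      · show (fs S : Finset (Fin n)).card ≤ D
        rw [AM.card_fs hS]
        exact hSD
    · rw [hbad]
      rw [Finset.mem_filter]
      refine ⟨Finset.mem_univ _, ?_⟩
      rw [cnt_eq F x hS hρn, AM.sample_length] at hlt
      have hm' : (0 : ℝ) < m := by exact_mod_cast hm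
      have e1 : ∑ j, vv F (tl ρ) (fs S) (x j) - m * Mco F (tl ρ) (fs S) =
          m * ((∑ j, vv F (tl ρ) (fs S) (x j)) / m - Mco F (tl ρ) (fs S)) := by
        field_simp
      show m * η < |∑ j, vv F (tl ρ) (fs S) (x j) - m * Mco F (tl ρ) (fs S)|
      rw [e1, abs_mul, abs_of_pos hm']
      exact mul_lt_mul_of_pos_left hlt hm'
  have hcard : ∀ z ∈ R ×ˢ A, ((bad z).card : ℝ) ≤
      2 * ((Fintype.card (Fin n → Bool) : ℝ) ^ m * Real.exp (-(m * η ^ 2 / 4))) := by
    intro z _
    exact AM.two_tails (vv F z.1 z.2) (vv_le F z.1 z.2) (Mco F z.1 z.2) (mean F z.1 z.2) η h0 h1 m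
  have htot : ((univ.filter fun x : Fin m → Fin n → Bool =>
      ¬ Est F (sample (vb F) x) D r η).card : ℝ) ≤ ((n + 1 : ℝ) ^ D * (2 * n + 1 : ℝ) ^ r) *
        (2 * ((Fintype.card (Fin n → Bool) : ℝ) ^ m * Real.exp (-(m * η ^ 2 / 4)))) := by
    have g1 : ((univ.filter fun x : Fin m → Fin n → Bool =>
        ¬ Est F (sample (vb F) x) D r η).card : ℝ) ≤ (((R ×ˢ A).biUnion bad).card : ℝ) := by
      exact_mod_cast Finset.card_le_card hsub
    have g2 : (((R ×ˢ A).biUnion bad).card : ℝ) ≤ ∑ z ∈ R ×ˢ A, ((bad z).card : ℝ) := by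
      exact_mod_cast Finset.card_biUnion_le
    have g3 : ∑ z ∈ R ×ˢ A, ((bad z).card : ℝ) ≤ ((R ×ˢ A).card : ℝ) *
        (2 * ((Fintype.card (Fin n → Bool) : ℝ) ^ m * Real.exp (-(m * η ^ 2 / 4)))) := by
      have := Finset.sum_le_card_nsmul (R ×ˢ A) (fun z => ((bad z).card : ℝ)) _ hcard
      rwa [nsmul_eq_mul] at this
    have g4 : ((R ×ˢ A).card : ℝ) ≤ (n + 1 : ℝ) ^ D * (2 * n + 1 : ℝ) ^ r := by
      rw [Finset.card_product]
      have : R.card * A.card ≤ (n + 1) ^ D * (2 * n + 1) ^ r := by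
        rw [mul_comm]
        exact Nat.mul_le_mul hAc hRc
      exact_mod_cast this
    exact g1.trans (g2.trans (g3.trans (mul_le_mul_of_nonneg_right g4 (by positivity))))
  rw [AM.prob_eq]
  have hN : ((Fintype.card (Fin m → Fin n → Bool) : ℕ) : ℝ) =
      (Fintype.card (Fin n → Bool) : ℝ) ^ m := by
    rw [Fintype.card_fun, Fintype.card_fin]
    push_cast
    rfl
  have hpos : (0 : ℝ) < (Fintype.card (Fin n → Bool) : ℝ) ^ m := by
    have : 0 < Fintype.card (Fin n → Bool) := Fintype.card_pos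
    positivity
  rw [hN, div_le_iff₀ hpos]
  refine htot.trans (le_of_eq ?_)
  ring

end Pool.Agent.Helper32.RK.HOE
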